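import Pool.Agent.K1H20.TQ.Main
import Pool.Agent.H628R4.TZ.Final
import Pool.Agent.Y228.AT.Top
import Pool.Agent.Y228.RR.Top

set_option autoImplicit false
set_option linter.unusedSectionVars false
set_option linter.unusedVariables false

/-! # The known families: the poles are negative -/

namespace Pool.Agent.K1H20.TQ

open Polynomial Pool.Agent.W574.SM Pool.Agent.W574.CN Pool.Agent.W574.RO Pool.Agent.Y229
open Pool.Agent.W574.MO Pool.Agent.W425.SM Pool.Agent.W425.SV Pool.Agent.W422.GC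
open Pool.Agent.W425.ND Pool.Agent.W574.HS Pool.Agent.Y230.PS Pool.Agent.Y230.TH
open Pool.Agent.W425.SU Pool.Agent.W425.SI
open Pool.Agent.H628R4.TP (IsBFunction)

theorem neg_of_reg {Z : RatFunc ℂ} (h : ∀ s : ℂ, 0 ≤ s.re → Z ∈ Reg s) (s : ℂ)
    (hs : Z.denom.eval s = 0) : s.re < 0 := by
  by_contra h0
  exact Reg_denom s Z (h s (not_lt.1 h0)) hs

theorem fac_reg (a n : ℕ) (hn : 0 < n) (s : ℂ) (hs : 0 ≤ s.re) : fac a n ∈ Reg s := by
  refine fac_mem a n s fun h => ?_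
  have h1 := congrArg Complex.re h
  rw [Complex.add_re, Complex.mul_re, Complex.natCast_re, Complex.natCast_re,
    Complex.natCast_im, zero_mul, sub_zero, Complex.zero_re] at h1
  have h2 : (0 : ℝ) < n := by exact_mod_cast hn
  have h3 : (0 : ℝ) ≤ a * s.re := mul_nonneg (Nat.cast_nonneg a) hs
  linarith

theorem aff_reg (a n : ℕ) (hn : 0 < n) (s : ℂ) (hs : 0 ≤ s.re) :
    ((a : RatFunc ℂ) * RatFunc.X + (n : RatFunc ℂ))⁻¹ ∈ Reg s := by
  have h := fac_reg a n hn s hs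
  unfold fac at h
  rwa [one_div, add_comm] at h

theorem int_reg (s : ℂ) (n : ℤ) : (n : RatFunc ℂ) ∈ Reg s := intCast_mem (Reg s) n

theorem nat_reg (s : ℂ) (n : ℕ) : (n : RatFunc ℂ) ∈ Reg s := natCast_mem (Reg s) n

theorem local_reg {ι : Type} (g : ι → MvPolynomial (Fin 2) ℂ) (a₀ n₀ a₁ n₁ : ℕ) (Z : RatFunc ℂ)
    (h : LocalZeta g a₀ n₀ a₁ n₁ Z) (s : ℂ) (hs : 0 ≤ s.re) :
    0 < n₀ → 0 < n₁ → Z ∈ Reg s := by
  induction h with
  | unit g a₀ n₀ a₁ n₁ j hj =>
    exact fun h0 h1 => (Reg s).mul_mem (fac_reg _ _ h0 s hs) (fac_reg _ _ h1 s hs)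
  | curveV g a₀ n₀ m hm h k hg h0 h1 j hj =>
    exact fun h0 h1 => (Reg s).mul_mem (fac_reg _ _ h0 s hs) (fac_reg _ _ one_pos s hs)
  | curveU g a₁ n₁ m hm h k hg h0 h1 j hj =>
    exact fun h0 h1 => (Reg s).mul_mem (fac_reg _ _ h1 s hs) (fac_reg _ _ one_pos s hs)
  | blowup g a₀ n₀ a₁ n₁ m hm gc gI hgc hgI S h0S hS Zc ZI h0 hc hI ih0 ihc ihI =>
    intro hn0 hn1
    refine (Reg s).add_mem ((Reg s).add_mem (ihI hn0 (by omega)) (Subring.sum_mem _ ?_)) ?_
    · intro c hcS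
      by_cases h : c = 0
      · rw [h]
        exact ih0 (by omega) hn1
      · exact ihc c hcS h (by omega) one_pos
    · exact (Reg s).mul_mem ((Reg s).sub_mem (Reg s).one_mem (nat_reg s _))
        (fac_reg _ _ (by omega) s hs)

theorem plane_reg {ι : Type} (f : ι → MvPolynomial (Fin 2) ℂ) (Z : RatFunc ℂ)
    (h : PlaneZeta f Z) (s : ℂ) (hs : 0 ≤ s.re) : Z ∈ Reg s := by
  obtain ⟨χ₀, r, h', m, χ, S, ZP, h1, h2, rfl⟩ := h
  refine (Reg s).add_mem ((Reg s).add_mem (int_reg s _) (Subring.sum_mem _ fun i _ =>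
    (Reg s).mul_mem (int_reg s _) (fac_reg _ _ one_pos s hs))) (Subring.sum_mem _ fun P hP => ?_)
  exact local_reg _ _ _ _ _ _ (h2 P hP) s hs one_pos one_pos

theorem toric_reg {r N : ℕ} {v : Fin r → Fin N → ℕ} (R : Pool.Agent.H628R4.TZ.ToricResolution v)
    (s : ℂ) (hs : 0 ≤ s.re) : Pool.Agent.H628R4.TZ.topZeta R ∈ Reg s := by
  refine Subring.sum_mem _ fun k _ => Subring.prod_mem _ fun i _ => ?_
  refine aff_reg _ _ ?_ s hs
  by_contra h0
  have h1 : ∀ l, R.ray k i l = 0 := fun l => by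
    have := Finset.sum_eq_zero_iff.1 (Nat.eq_zero_of_not_pos h0) l (Finset.mem_univ l)
    exact this
  have h2 := R.unimodular k
  rw [Matrix.det_eq_zero_of_row_eq_zero i (fun l => by simp [h1 l])] at h2
  exact not_isUnit_zero h2

theorem fan_pos {N : ℕ} (R : SmoothFan N) (τ : Finset (Fin N → ℕ)) (hτ : τ ∈ R.cones)
    (ρ : Fin N → ℕ) (hρ : ρ ∈ τ) : 0 < ∑ l, ρ l := by
  obtain ⟨B, hB, h⟩ := R.smooth τ hτ
  obtain ⟨i, hi⟩ := h ρ hρ
  by_contra h0
  have h1 : ∀ l, ρ l = 0 := fun l =>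
    Finset.sum_eq_zero_iff.1 (Nat.eq_zero_of_not_pos h0) l (Finset.mem_univ l)
  rw [Matrix.det_eq_zero_of_row_eq_zero i (fun l => by rw [hi l, h1 l]; rfl)] at hB
  exact not_isUnit_zero hB

theorem X1_inv_reg (s : ℂ) (hs : 0 ≤ s.re) : (RatFunc.X + 1 : RatFunc ℂ)⁻¹ ∈ Reg s :=
  X1_inv s fun h => by
    rw [h] at hs
    norm_num at hs

theorem topZetaG_reg {r N : ℕ} (v : Fin r → Fin N → ℕ) (R : SmoothFan N) (s : ℂ)
    (hs : 0 ≤ s.re) : topZetaG v R ∈ Reg s := by
  refine Subring.sum_mem _ fun τ hτ => (Reg s).mul_mem ((Reg s).add_mem (C_reg s _)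
    ((Reg s).mul_mem (C_reg s _) (X1_inv_reg s hs))) (Subring.prod_mem _ fun ρ hρ => ?_)
  exact aff_reg _ _ (fan_pos R τ hτ ρ hρ) s hs

theorem topZ_reg {J : Type} [Fintype J] (ν N : J → ℕ) (hν : ∀ j, 0 < ν j) (χ : Finset J → ℤ)
    (s : ℂ) (hs : 0 ≤ s.re) : Pool.Agent.TH192.DT.topZ ν N χ ∈ Reg s :=
  Subring.sum_mem _ fun I _ => (Reg s).mul_mem (C_reg s _) (Subring.prod_mem _ fun j _ =>
    aff_reg _ _ (hν j) s hs)

/-- `Known A Z`: the ideal generated by the family `A` has the topological zeta function `Z`, and it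
is one of the following ideals. -/
inductive Known : Fam → RatFunc ℂ → Prop
  /-- any nonzero ideal in finitely many variables for which the stronger form (Q2) holds; `topZ ν N χ`
  is the topological zeta function, computed on a log resolution with the numbers `ν j = k j + 1` and
  `N j` and the Euler characteristics `χ S` of the strata -/
  | any (A : Fam) (hfin : Finite A.σ) (hne : ∃ j, A.f j ≠ 0) (J : Type) [Fintype J] (ν N : J → ℕ)
      (hν : ∀ j, 0 < ν j) (χ : Finset J → ℤ) (h : QQ A (Pool.Agent.TH192.DT.topZ ν N χ)) :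
      Known A (Pool.Agent.TH192.DT.topZ ν N χ)
  /-- all nonzero ideals of `ℂ[x, y]` -/
  | plane (r : ℕ) (f : Fin r → MvPolynomial (Fin 2) ℂ) (hf : ∃ j, f j ≠ 0) (Z : RatFunc ℂ)
      (hZ : PlaneZeta f Z) : Known ⟨Fin 2, Fin r, f⟩ Z
  /-- all nonzero monomial ideals -/
  | monomial (r N : ℕ) (hr : 1 ≤ r) (v : Fin r → Fin N → ℕ)
      (R : Pool.Agent.H628R4.TZ.ToricResolution v) :
      Known ⟨Fin N, Fin r, Pool.Agent.H628R4.TZ.mons v⟩ (Pool.Agent.H628R4.TZ.topZeta R)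
  /-- ideals `(f_1, …, f_k)`, `f_i = ∑_{π j = i} a_j x ^ (w j) + h_i`, where the exponents of `h_i` are
  in the convex hull of the `w j`, `π j = i`, the coefficients of the `h_i` are in the field `F`, and
  the `a_j` are algebraically independent over `F` -/
  | generic (r k N : ℕ) (hr : 1 ≤ r) (F : Subfield ℂ) (π : Fin r → Fin k)
      (w : Fin r → Fin N → ℕ) (hw : Function.Injective fun j => (π j, w j))
      (h : Fin k → MvPolynomial (Fin N) F) (hh : ∀ i, ∀ u ∈ (h i).support, HullAt π w i u)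
      (a : Fin r → ℂ) (ha : AlgebraicIndependent F a) (R : SmoothFan (k + N))
      (hR : Principal (cay π w) R) :
      Known ⟨Fin N, Fin k, fun i => gens π w a i + MvPolynomial.map (algebraMap F ℂ) (h i)⟩
        (topZetaI π w R)

/-- `KnownHyp A Z`: the same for hypersurfaces. -/
inductive KnownHyp : Fam → RatFunc ℂ → Prop
  /-- any hypersurface in finitely many variables for which the stronger form holds -/
  | any (σ : Type) (hfin : Finite σ) (g : MvPolynomial σ ℂ) (hg : g ≠ 0) (J : Type) [Fintype J]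
      (ν N : J → ℕ) (hν : ∀ j, 0 < ν j) (χ : Finset J → ℤ)
      (h : QQ ⟨σ, Fin 1, fun _ => g⟩ (Pool.Agent.TH192.DT.topZ ν N χ)) :
      KnownHyp ⟨σ, Fin 1, fun _ => g⟩ (Pool.Agent.TH192.DT.topZ ν N χ)
  /-- all plane curves, and the polynomials with very general coefficients at the vertices of the
  Newton polytope -/
  | strong (A : Fam) (Z : RatFunc ℂ) (h : StrongHyp A Z) : KnownHyp A Z

theorem known_Cq (A : Fam) (Z : RatFunc ℂ) (h : Known A Z) : Cq A Z := by
  classical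
  cases h with
  | any _ hfin hne J ν N hν χ h =>
    exact Cq_of_QQ A _ hfin hne (neg_of_reg fun s hs => topZ_reg ν N hν χ s hs) h
  | plane r f hf _ hZ =>
    exact Cq_of_QQ _ _ (inferInstanceAs (Finite (Fin 2))) hf
      (neg_of_reg fun s hs => plane_reg f _ hZ s hs)
      fun b hb => Pool.Agent.Y230.PL.plane_q2 f b hb _ hZ
  | monomial r N hr v R =>
    have : NeZero r := ⟨by omega⟩
    refine Cq_of_QQ _ _ (inferInstanceAs (Finite (Fin N))) ⟨(⟨0, by omega⟩ : Fin r), ?_⟩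
      (neg_of_reg fun s hs => toric_reg R s hs) fun b hb => Pool.Agent.H628R4.TZ.main R b hb
    change Pool.Agent.H628R4.TZ.mons v _ ≠ 0
    unfold Pool.Agent.H628R4.TZ.mons
    exact Finset.prod_ne_zero_iff.2 fun l _ => pow_ne_zero _ (MvPolynomial.X_ne_zero l)
  | generic r k N hr F π w hw h hh a ha R hR =>
    refine Cq_of_QQ _ _ (inferInstanceAs (Finite (Fin N)))
      (Pool.Agent.Y228.AT.gens_ne hr F π w hw h a ha) (neg_of_reg fun s hs => ?_) fun b hb => ?_
    · exact (Reg s).mul_mem (X1_reg s) (topZetaG_reg _ R s hs)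
    · exact finalIdealC hr π w a hw ha h hh
        (fun i => gens π w a i + MvPolynomial.map (algebraMap F ℂ) (h i)) (fun _ => 1) (fun _ => 1)
        (fun _ => one_ne_zero) (fun _ => one_ne_zero) (fun i => by simp) R hR b hb

theorem hyp_Cq (A : Fam) (Z : RatFunc ℂ) (h : KnownHyp A Z) : Cq A Z := by
  classical
  cases h with
  | any σ hfin g hg J ν N hν χ h =>
    exact Cq_of_QQ _ _ hfin ⟨(0 : Fin 1), hg⟩ (neg_of_reg fun s hs => topZ_reg ν N hν χ s hs) h
  | strong _ _ h =>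
    have h1 := strongHyp_cl ⊥ A Z h
    cases h with
    | curve g hg Z hZ =>
      exact Cq_of_QQ _ _ h1.fin h1.ne (neg_of_reg fun s hs => plane_reg _ _ hZ s hs)
        fun b hb => Pool.Agent.Y230.PL.plane_q2 _ b hb _ hZ
    | generic r N hr F v hv hv0 h hh a ha R hR =>
      obtain ⟨g, hg, h2⟩ := Pool.Agent.W425.GN.gen_top hr v hv hv0 h hh
      have hga : MvPolynomial.aeval a g ≠ 0 := fun h0 => hg (ha (by rw [h0, map_zero]))
      exact Cq_of_QQ _ _ h1.fin h1.ne (neg_of_reg fun s hs => topZetaG_reg _ R s hs)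
        fun b hb => (h2 a hga).2 b (isB_of_single _ b hb) R hR

/-- **Q2 for sums, products and Thom-Sebastiani sums in disjoint variables.** -/
theorem main (c : Bool) (A : Fam) (Z : RatFunc ℂ) (h : TT Known KnownHyp c A Z) : QQ A Z :=
  QQ_of_Cq A Z (closure Known KnownHyp known_Cq hyp_Cq c A Z h)

end Pool.Agent.K1H20.TQ
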