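import Pool.Agent.K1H20.TQ.Ord

set_option autoImplicit false
set_option linter.unusedSectionVars false
set_option linter.unusedVariables false

/-! # The orders of the poles for sums, products and Thom-Sebastiani sums in disjoint variables -/

namespace Pool.Agent.K1H20.TQ

open Polynomial Pool.Agent.W574.SM Pool.Agent.W574.CN Pool.Agent.W574.RO Pool.Agent.Y229
open Pool.Agent.W574.MO Pool.Agent.W425.SM Pool.Agent.W425.SV Pool.Agent.W422.GC
open Pool.Agent.W425.ND Pool.Agent.W574.HS Pool.Agent.Y230.PS Pool.Agent.Y230.TH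
open Pool.Agent.H628R4.TP (IsBFunction)

/-- `b Z` is a polynomial for every functional equation -/
def QQ (A : Fam) (Z : RatFunc ℂ) : Prop :=
  ∀ b : ℂ[X], IsFunctionalEq A.f b → ∃ P : ℂ[X], algebraMap ℂ[X] (RatFunc ℂ) b * Z =
    algebraMap ℂ[X] (RatFunc ℂ) P

/-- the property of the members of the classes -/
structure Cq (A : Fam) (Z : RatFunc ℂ) : Prop where
  fin : Finite A.σ
  ne : ∃ j, A.f j ≠ 0
  neg : ∀ s : ℂ, Z.denom.eval s = 0 → s.re < 0
  main : ∀ s : ℂ, ∃ n : ℕ, PO s n Z ∧ FM A.f s n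

theorem reg_of_neg {Z : RatFunc ℂ} (h : ∀ s : ℂ, Z.denom.eval s = 0 → s.re < 0) (s : ℂ)
    (hs : 0 ≤ s.re) : Z ∈ Reg s :=
  mem_Reg_of_denom _ _ fun h0 => absurd (h s h0) (not_lt.2 hs)

theorem QQ_of_Cq (A : Fam) (Z : RatFunc ℂ) (h : Cq A Z) : QQ A Z := by
  intro b hb
  obtain ⟨P, hP⟩ := poly_of_reg (algebraMap ℂ[X] (RatFunc ℂ) b * Z) fun s => by
    obtain ⟨n, h1, h2⟩ := h.main s
    obtain ⟨c, hc⟩ := h2 b hb
    have e : algebraMap ℂ[X] (RatFunc ℂ) b * Z =
        algebraMap ℂ[X] (RatFunc ℂ) c * ((RatFunc.X + RatFunc.C (-s)) ^ n * Z) := by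
      rw [hc, map_mul, map_pow, ← base_eq]
      ring
    rw [e]
    exact (Reg s).mul_mem (poly_reg s c) h1
  exact ⟨P, hP⟩

theorem Cq_of_QQ (A : Fam) (Z : RatFunc ℂ) (hfin : Finite A.σ) (hne : ∃ j, A.f j ≠ 0)
    (hneg : ∀ s : ℂ, Z.denom.eval s = 0 → s.re < 0) (h : QQ A Z) : Cq A Z := by
  classical
  refine ⟨hfin, hne, hneg, fun s => ?_⟩
  have hex : ∃ n : ℕ, ∃ b : ℂ[X], b ≠ 0 ∧ IsFunctionalEq A.f b ∧ b.rootMultiplicity s = n := by
    obtain ⟨b0, hb0, hfe⟩ := exists_fe A.f hne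
    exact ⟨_, b0, hb0, hfe, rfl⟩
  obtain ⟨b, hb0, hb, hn⟩ := Nat.find_spec hex
  have hmin : ∀ b' : ℂ[X], b' ≠ 0 → IsFunctionalEq A.f b' →
      b.rootMultiplicity s ≤ b'.rootMultiplicity s := fun b' h1 h2 => by
    rw [hn]
    exact Nat.find_min' hex ⟨b', h1, h2, rfl⟩
  refine ⟨b.rootMultiplicity s, ?_, ?_⟩
  · obtain ⟨P, hP⟩ := h b hb
    refine PO_of_mul b hb0 Z s ?_
    rw [hP]
    exact poly_reg s P
  · intro b' hb'
    by_cases h0 : b' = 0
    · rw [h0]
      exact dvd_zero _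
    · exact (le_rootMultiplicity_iff h0).1 (hmin b' h0 hb')

/-- the orders at the exponents -/
theorem FM_exp (A : Fam) (Z : RatFunc ℂ) (hA : Cq A Z) (v : ℂ × ℕ →₀ ℂ)
    (hv : 1 - Z = RatFunc.X * lap v) (hv0 : ∀ p ∈ v.support, p.1 ≠ 0) (p : ℂ × ℕ)
    (hp : p ∈ v.support) : FM A.f (-p.1) (p.2 + 1) := by
  classical
  obtain ⟨n, h1, h2⟩ := hA.main (-p.1)
  refine h2.mono ?_
  refine lap_order v p hp n ?_
  have h3 : lap v = RatFunc.X⁻¹ * (1 - Z) := by
    rw [hv, ← mul_assoc, inv_mul_cancel₀ RatFunc.X_ne_zero, one_mul]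
  rw [h3]
  exact PO.reg_mul (X_inv_reg _ (neg_ne_zero.2 (hv0 p hp)))
    ((PO.of_reg (Reg _).one_mem _).sub h1)

theorem inv_X1_PO (s : ℂ) : PO s (dl s) (RatFunc.X + 1 : RatFunc ℂ)⁻¹ := by
  rw [dl_eq]
  split_ifs with h
  · unfold PO
    have e : (RatFunc.X + RatFunc.C (-s) : RatFunc ℂ) = RatFunc.X + 1 := by
      rw [h, neg_neg, map_one]
    rw [e, pow_one, mul_inv_cancel₀ X1_ne]
    exact (Reg s).one_mem
  · exact PO_zero (X1_inv s h)

/-- the orders at the exponents of `(s + 1) Z` -/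
theorem FM_exp1 (A : Fam) (Z : RatFunc ℂ) (hA : Cq A Z) (w : ℂ × ℕ →₀ ℂ) (c : ℂ)
    (hw : 1 - (RatFunc.X + 1) * Z = RatFunc.X * (lap w - RatFunc.C c))
    (hw0 : ∀ p ∈ w.support, p.1 ≠ 0) (p : ℂ × ℕ) (hp : p ∈ w.support) :
    FM A.f (-p.1) ((p.2 + 1) + dl (-p.1)) := by
  classical
  have key : ∀ n : ℕ, PO (-p.1) n ((RatFunc.X + 1) * Z) → p.2 + 1 ≤ n := by
    intro n h1
    refine lap_order w p hp n ?_
    have h3 : lap w = RatFunc.X⁻¹ * (1 - (RatFunc.X + 1) * Z) + RatFunc.C c := by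
      rw [hw, ← mul_assoc, inv_mul_cancel₀ RatFunc.X_ne_zero, one_mul, sub_add_cancel]
    rw [h3]
    exact (PO.reg_mul (X_inv_reg _ (neg_ne_zero.2 (hw0 p hp)))
      ((PO.of_reg (Reg _).one_mem _).sub h1)).add (PO.of_reg (C_reg _ _) _)
  obtain ⟨n, h1, h2⟩ := hA.main (-p.1)
  rw [dl_eq]
  split_ifs with h
  · refine h2.mono ?_
    rcases Nat.eq_zero_or_pos n with h0 | h0
    · subst h0
      have := key 0 (PO.reg_mul (X1_reg _) h1)
      omega
    · obtain ⟨m, rfl⟩ : ∃ m, n = m + 1 := ⟨n - 1, by omega⟩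
      have h3 : PO (-p.1) m ((RatFunc.X + 1) * Z) := by
        unfold PO at *
        have e : (RatFunc.X + RatFunc.C (-(-p.1)) : RatFunc ℂ) = RatFunc.X + 1 := by
          rw [h, neg_neg, map_one]
        rw [e] at h1 ⊢
        rw [← mul_assoc, ← pow_succ]
        exact h1
      have := key m h3
      omega
  · rw [add_zero]
    exact h2.mono (key n (PO.reg_mul (X1_reg _) h1))

theorem neg_lap2 (v w : ℂ × ℕ →₀ ℂ) (hv : ∀ p ∈ v.support, (-p.1).re < 0)
    (hw : ∀ p ∈ w.support, (-p.1).re < 0) (s : ℂ)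
    (h : (1 - RatFunc.X * lap2 v w).denom.eval s = 0) : s.re < 0 := by
  obtain ⟨p, hp, q, hq, rfl⟩ := lap2_pole v w s h
  rw [Complex.add_re]
  exact add_neg (hv p hp) (hw q hq)

/-- **The induction.** -/
theorem closure (At HAt : Fam → RatFunc ℂ → Prop) (hAt : ∀ A Z, At A Z → Cq A Z)
    (hHAt : ∀ A Z, HAt A Z → Cq A Z) (c : Bool) (A : Fam) (Z : RatFunc ℂ)
    (h : TT At HAt c A Z) : Cq A Z := by
  induction h with
  | atom A Z h => exact hAt A Z h
  | hatom A Z h => exact hHAt A Z h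
  | hyp A Z h ih => exact ih
  | sum A B Z W v w hv hw hv0 hw0 hA hB ihA ihB =>
    have := ihA.fin
    have := ihB.fin
    refine ⟨inferInstanceAs (Finite (A.σ ⊕ B.σ)), ?_, ?_, fun s => ?_⟩
    · obtain ⟨j, hj⟩ := ihA.ne
      refine ⟨Sum.inl j, ?_⟩
      change MvPolynomial.rename Sum.inl (A.f j) ≠ 0
      rw [Ne, map_eq_zero_iff _ (MvPolynomial.rename_injective _ Sum.inl_injective)]
      exact hj
    · exact neg_lap2 v w (fun p hp => ihA.neg _ (pole_of_exp Z v hv hv0 p hp))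
        (fun p hp => ihB.neg _ (pole_of_exp W w hw hw0 p hp))
    · obtain ⟨n, h1, h2⟩ := lap2_order v w s
      refine ⟨n, (PO.of_reg (Reg s).one_mem n).sub (PO.reg_mul (X_reg s) h1), ?_⟩
      rcases h2 with rfl | ⟨p, hp, q, hq, rfl, rfl⟩
      · intro b hb
        rw [pow_zero]
        exact one_dvd _
      · classical
        have h3 := FM_sum A.f B.f (-p.1) (-q.1) (p.2 + 1) (q.2 + 1) (by omega) (by omega)
          (FM_exp A Z ihA v hv hv0 p hp) (FM_exp B W ihB w hw hw0 q hq)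
        intro b hb
        exact (pow_dvd_pow _ (by omega)).trans (h3 b hb)
  | mul c A B Z W hA hB ihA ihB =>
    have hfA := ihA.fin
    have hfB := ihB.fin
    have hneA := ihA.ne
    have hneB := ihB.ne
    refine ⟨inferInstanceAs (Finite (A.σ ⊕ B.σ)), ?_, fun s hs => ?_, fun s => ?_⟩
    · obtain ⟨j, hj⟩ := hneA
      obtain ⟨k, hk⟩ := hneB
      refine ⟨(j, k), ?_⟩
      change (MvPolynomial.rename Sum.inl (A.f j) * MvPolynomial.rename Sum.inr (B.f k) :
        MvPolynomial (A.σ ⊕ B.σ) ℂ) ≠ 0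
      refine mul_ne_zero ?_ ?_
      · rw [Ne, map_eq_zero_iff _ (MvPolynomial.rename_injective _ Sum.inl_injective)]
        exact hj
      · rw [Ne, map_eq_zero_iff _ (MvPolynomial.rename_injective _ Sum.inr_injective)]
        exact hk
    · by_contra hre
      push Not at hre
      exact Reg_denom s _ ((Reg s).mul_mem (reg_of_neg ihA.neg s hre)
        (reg_of_neg ihB.neg s hre)) hs
    · by_cases hre : 0 ≤ s.re
      · refine ⟨0, PO_zero ((Reg s).mul_mem (reg_of_neg ihA.neg s hre)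
          (reg_of_neg ihB.neg s hre)), fun b hb => ?_⟩
        rw [pow_zero]
        exact one_dvd _
      · obtain ⟨m, h1, h2⟩ := ihA.main s
        obtain ⟨n, h3, h4⟩ := ihB.main s
        classical
        refine ⟨m + n, h1.mul h3, FM_mul A.f B.f hneA hneB s (fun N hN => hre ?_) m n h2 h4⟩
        rw [← hN, Complex.natCast_re]
        exact Nat.cast_nonneg N
  | univ A Z hA ihA =>
    have hfA := ihA.fin
    have hneA := ihA.ne
    refine ⟨inferInstanceAs (Finite (A.ι ⊕ A.σ)), ⟨0, univFam_ne A hneA⟩, fun s hs => ?_,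
      fun s => ?_⟩
    · rcases pole_form Z s hs with h2 | rfl
      · exact ihA.neg s h2
      · norm_num
    · obtain ⟨n, h1, h2⟩ := ihA.main s
      exact ⟨n + dl s, h1.mul (inv_X1_PO s), fm_univ A hneA s n h2⟩
  | ts A τ g Z W v w c hv hw hv0 hw0 hA hg ihA ihg =>
    have hfA := ihA.fin
    have hfg := ihg.fin
    have hneA := ihA.ne
    have hg0 : g ≠ 0 := by
      obtain ⟨j, hj⟩ := ihg.ne
      exact hj
    have hwneg : ∀ q ∈ w.support, (-q.1).re < 0 := by
      intro q hq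
      refine ihg.neg _ (pole_of_ref W _ ?_)
      have h5 := pole_of_exp ((RatFunc.X + 1) * W - RatFunc.X * RatFunc.C c) w
        (by linear_combination hw) hw0 q hq
      by_contra h6
      exact Reg_denom _ _ ((Reg _).sub_mem (mem_Reg_of_denom _ _ h6)
        ((Reg _).mul_mem (X_reg _) (C_reg _ c))) h5
    refine ⟨inferInstanceAs (Finite ((A.ι ⊕ A.σ) ⊕ τ)), ⟨0, tsFam_ne A τ g hg0⟩, fun s hs => ?_,
      fun s => ?_⟩
    · rcases pole_form _ s hs with h2 | rfl
      · refine neg_lap2 v w (fun p hp => ihA.neg _ (pole_of_exp Z v hv hv0 p hp)) hwneg s ?_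
        by_contra h3
        refine Reg_denom s _ ?_ h2
        have h4 := (Reg s).add_mem (mem_Reg_of_denom _ _ h3)
          ((Reg s).mul_mem (X_reg s) (C_reg s (c * val0 v)))
        have e : 1 - RatFunc.X * lap2 v w + RatFunc.X * RatFunc.C (c * val0 v) =
          1 - RatFunc.X * (lap2 v w - RatFunc.C (c * val0 v)) := by ring
        rwa [e] at h4
      · norm_num
    · obtain ⟨n, h1, h2⟩ := lap2_order v w s
      have hPO : PO s (n + dl s) ((1 - RatFunc.X * (lap2 v w - RatFunc.C (c * val0 v))) *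
          (RatFunc.X + 1)⁻¹) :=
        ((PO.of_reg (Reg s).one_mem n).sub (PO.reg_mul (X_reg s)
          (h1.sub (PO.of_reg (C_reg s _) n)))).mul (inv_X1_PO s)
      refine ⟨n + dl s, hPO, fun b hb => ?_⟩
      obtain ⟨b', rfl, h7⟩ := fm_ts A τ g hneA hg0 b hb
      have h8 : (X - C s) ^ n ∣ b' := by
        rcases h2 with rfl | ⟨p, hp, q, hq, rfl, rfl⟩
        · rw [pow_zero]
          exact one_dvd _
        · have h9 := h7 (-p.1) (-q.1) (p.2 + 1) (q.2 + 1) (by omega) (by omega)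
            (FM_exp A Z ihA v hv hv0 p hp) (FM_exp1 _ W ihg w c hw hw0 q hq)
          exact (pow_dvd_pow _ (by omega)).trans h9
      rw [dl_eq]
      split_ifs with h9
      · rw [pow_succ']
        refine mul_dvd_mul ?_ h8
        rw [X_add_one, h9]
      · rw [add_zero]
        exact h8.mul_left _
  | drop σ κ g Z h ih =>
    have hf : Finite (σ ⊕ κ) := ih.fin
    have hf' : Finite σ := Finite.of_injective (Sum.inl : σ → σ ⊕ κ) Sum.inl_injective
    refine ⟨hf', ⟨(0 : Fin 1), fun h0 => ?_⟩, ih.neg, fun s => ?_⟩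
    · obtain ⟨j, hj⟩ := ih.ne
      apply hj
      have h1 : g = 0 := h0
      change MvPolynomial.rename Sum.inl g = 0
      rw [h1, map_zero]
    · obtain ⟨n, h1, h2⟩ := ih.main s
      exact ⟨n, h1, fm_drop (κ := κ) g _ _ h2⟩
  | equiv c A B i k h Z hA ihA =>
    have hf := ihA.fin
    refine ⟨Finite.of_equiv A.σ i, ?_, ihA.neg, fun s => ?_⟩
    · obtain ⟨j, hj⟩ := ihA.ne
      refine ⟨k j, ?_⟩
      rw [h, Ne, map_eq_zero_iff _ (MvPolynomial.rename_injective _ i.injective)]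
      exact hj
    · obtain ⟨n, h1, h2⟩ := ihA.main s
      exact ⟨n, h1, fm_equiv A B i k h _ _ h2⟩

end Pool.Agent.K1H20.TQ
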