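import Pool.Agent.Y229.LP1
import Pool.Agent.Y230.TH.Top

set_option autoImplicit false
set_option linter.unusedSectionVars false
set_option linter.unusedVariables false

/-! # Orders of poles and multiplicities of roots -/

namespace Pool.Agent.K1H20.TQ

open Polynomial Pool.Agent.W574.SM Pool.Agent.W574.RO Pool.Agent.W574.CN Pool.Agent.Y229
open Pool.Agent.Y230.PS Pool.Agent.Y230.TH

/-- the order of the pole of `Z` at `s` is at most `n` -/
def PO (s : ℂ) (n : ℕ) (Z : RatFunc ℂ) : Prop := (RatFunc.X + RatFunc.C (-s)) ^ n * Z ∈ Reg s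

theorem base_reg (s : ℂ) : (RatFunc.X + RatFunc.C (-s) : RatFunc ℂ) ∈ Reg s :=
  (Reg s).add_mem (X_reg s) (C_reg s _)

theorem PO.mono {s : ℂ} {n m : ℕ} {Z : RatFunc ℂ} (h : PO s n Z) (hn : n ≤ m) : PO s m Z := by
  unfold PO at *
  obtain ⟨k, rfl⟩ := Nat.exists_eq_add_of_le hn
  rw [pow_add, mul_comm (_ ^ n), mul_assoc]
  exact (Reg s).mul_mem ((Reg s).pow_mem (base_reg s) _) h

theorem PO_zero {s : ℂ} {Z : RatFunc ℂ} (h : Z ∈ Reg s) : PO s 0 Z := by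
  unfold PO
  rwa [pow_zero, one_mul]

theorem PO.of_reg {s : ℂ} {Z : RatFunc ℂ} (h : Z ∈ Reg s) (n : ℕ) : PO s n Z :=
  (PO_zero h).mono (Nat.zero_le _)

theorem PO.mul {s : ℂ} {n m : ℕ} {Z W : RatFunc ℂ} (h : PO s n Z) (h' : PO s m W) :
    PO s (n + m) (Z * W) := by
  unfold PO at *
  have := (Reg s).mul_mem h h'
  have e : (RatFunc.X + RatFunc.C (-s)) ^ n * Z * ((RatFunc.X + RatFunc.C (-s)) ^ m * W) =
      (RatFunc.X + RatFunc.C (-s)) ^ (n + m) * (Z * W) := by ring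
  rwa [e] at this

theorem PO.add {s : ℂ} {n : ℕ} {Z W : RatFunc ℂ} (h : PO s n Z) (h' : PO s n W) :
    PO s n (Z + W) := by
  unfold PO at *
  rw [mul_add]
  exact (Reg s).add_mem h h'

theorem PO.sub {s : ℂ} {n : ℕ} {Z W : RatFunc ℂ} (h : PO s n Z) (h' : PO s n W) :
    PO s n (Z - W) := by
  unfold PO at *
  rw [mul_sub]
  exact (Reg s).sub_mem h h'

theorem PO.reg_mul {s : ℂ} {n : ℕ} {Z W : RatFunc ℂ} (h : W ∈ Reg s) (h' : PO s n Z) :
    PO s n (W * Z) := by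
  have := (PO_zero h).mul h'
  rwa [zero_add] at this

theorem PO.sum {s : ℂ} {n : ℕ} {κ : Type*} (K : Finset κ) (Z : κ → RatFunc ℂ)
    (h : ∀ k ∈ K, PO s n (Z k)) : PO s n (∑ k ∈ K, Z k) := by
  unfold PO at *
  rw [Finset.mul_sum]
  exact Subring.sum_mem _ h

/-- the Laplace transform of `t ^ k exp (- α t)` -/
theorem lterm_PO (s α : ℂ) (k : ℕ) (h : s = -α) : PO s (k + 1) (lterm α k) := by
  unfold PO
  rw [h, neg_neg, lterm, mul_comm (RatFunc.C _), ← mul_assoc,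
    mul_inv_cancel₀ (pow_ne_zero _ (XC_ne α)), one_mul]
  exact C_reg _ _

/-- the orders of the poles of a Laplace transform -/
theorem lap_order (v : ℂ × ℕ →₀ ℂ) (p : ℂ × ℕ) (h : p ∈ v.support) (n : ℕ)
    (hn : PO (-p.1) n (lap v)) : p.2 + 1 ≤ n := by
  classical
  by_contra hlt
  push Not at hlt
  obtain ⟨p0, hp0, hmax⟩ := Finset.exists_max_image (v.support.filter (fun q => q.1 = p.1))
    (fun q => q.2) ⟨p, Finset.mem_filter.2 ⟨h, rfl⟩⟩
  obtain ⟨hp0s, hp01⟩ := Finset.mem_filter.1 hp0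
  have hpp : p.2 ≤ p0.2 := hmax p (Finset.mem_filter.2 ⟨h, rfl⟩)
  set α := p.1 with hα
  set x : RatFunc ℂ := RatFunc.X + RatFunc.C α with hx
  have hx0 : x ≠ 0 := XC_ne α
  have hxr : x ∈ Reg (-α) := (Reg _).add_mem (X_reg _) (C_reg _ _)
  have h1 : ∀ q ∈ v.support.erase p0,
      x ^ p0.2 * (RatFunc.C (v q) * lterm q.1 q.2) ∈ Reg (-α) := by
    intro q hq
    by_cases hq1 : q.1 = α
    · have h2 : q.2 ≤ p0.2 := hmax q (Finset.mem_filter.2 ⟨Finset.mem_of_mem_erase hq, hq1⟩)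
      have h3 : q.2 ≠ p0.2 := fun h3 => Finset.ne_of_mem_erase hq
        (Prod.ext (hq1.trans hp01.symm) h3)
      obtain ⟨m, hm⟩ : ∃ m, p0.2 = m + (q.2 + 1) := ⟨p0.2 - (q.2 + 1), by omega⟩
      have h4 : x ^ p0.2 * (RatFunc.C (v q) * lterm q.1 q.2) =
          x ^ m * (RatFunc.C (v q) * RatFunc.C (q.2.factorial : ℂ)) := by
        rw [lterm, hq1, ← hx, hm, pow_add]
        field_simp
      rw [h4]
      exact (Reg _).mul_mem ((Reg _).pow_mem hxr _) ((Reg _).mul_mem (C_reg _ _) (C_reg _ _))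
    · exact (Reg _).mul_mem ((Reg _).pow_mem hxr _) ((Reg _).mul_mem (C_reg _ _)
        (lterm_reg _ _ _ fun h2 => hq1 (neg_injective h2.symm)))
  have hreg : x ^ p0.2 * lap v ∈ Reg (-α) := by
    have h5 : PO (-α) p0.2 (lap v) := hn.mono (by omega)
    unfold PO at h5
    rwa [neg_neg] at h5
  have h2 : x ^ p0.2 * lap v = RatFunc.C (v p0 * (p0.2.factorial : ℂ)) * x⁻¹ +
      ∑ q ∈ v.support.erase p0, x ^ p0.2 * (RatFunc.C (v q) * lterm q.1 q.2) := by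
    rw [lap, Finsupp.sum, Finset.mul_sum, ← Finset.add_sum_erase _ _ hp0s]
    congr 1
    rw [lterm, hp01, ← hx, map_mul, pow_succ]
    field_simp
  have h3 : RatFunc.C (v p0 * (p0.2.factorial : ℂ)) * x⁻¹ ∈ Reg (-α) := by
    have h4 := (Reg (-α)).sub_mem hreg (Subring.sum_mem _ h1)
    rw [h2, add_sub_cancel_right] at h4
    exact h4
  have hc : v p0 * (p0.2.factorial : ℂ) ≠ 0 :=
    mul_ne_zero (Finsupp.mem_support_iff.1 hp0s) (Nat.cast_ne_zero.2 (Nat.factorial_ne_zero _))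
  have h4 := (Reg (-α)).mul_mem (C_reg (-α) (v p0 * (p0.2.factorial : ℂ))⁻¹) h3
  rw [← mul_assoc, ← map_mul, inv_mul_cancel₀ hc, map_one, one_mul] at h4
  exact inv_not_reg α h4

/-- the orders of the poles of the product -/
theorem lap2_order (v w : ℂ × ℕ →₀ ℂ) (s : ℂ) : ∃ n : ℕ, PO s n (lap2 v w) ∧
    (n = 0 ∨ ∃ p ∈ v.support, ∃ q ∈ w.support, s = -p.1 + -q.1 ∧ n = p.2 + q.2 + 1) := by
  classical
  set K := (v.support ×ˢ w.support).filter (fun r => s = -r.1.1 + -r.2.1) with hK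
  have hterm : ∀ n : ℕ, (∀ r ∈ K, r.1.2 + r.2.2 + 1 ≤ n) → PO s n (lap2 v w) := by
    intro n hn
    unfold lap2 Finsupp.sum
    refine PO.sum _ _ fun p hp => PO.sum _ _ fun q hq => PO.reg_mul (C_reg _ _) ?_
    by_cases h : s = -p.1 + -q.1
    · exact (lterm_PO s _ _ (by rw [h]; ring)).mono (hn (p, q)
        (Finset.mem_filter.2 ⟨Finset.mem_product.2 ⟨hp, hq⟩, h⟩))
    · exact PO.of_reg (lterm_reg _ _ _ fun h' => h (by rw [h']; ring)) _
  rcases K.eq_empty_or_nonempty with h0 | hne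
  · exact ⟨0, hterm 0 (by rw [h0]; simp), Or.inl rfl⟩
  · obtain ⟨r, hr, hmax⟩ := Finset.exists_max_image K (fun r => r.1.2 + r.2.2 + 1) hne
    obtain ⟨h1, h2⟩ := Finset.mem_filter.1 hr
    obtain ⟨h3, h4⟩ := Finset.mem_product.1 h1
    exact ⟨_, hterm _ hmax, Or.inr ⟨r.1, h3, r.2, h4, h2, rfl⟩⟩

/-- `b Z` is a polynomial if it is regular everywhere -/
theorem poly_of_reg (x : RatFunc ℂ) (h : ∀ s : ℂ, x ∈ Reg s) :
    ∃ P : ℂ[X], x = algebraMap ℂ[X] (RatFunc ℂ) P := by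
  have h1 : ∀ s : ℂ, x.denom.eval s ≠ 0 := fun s => Reg_denom s x (h s)
  have h2 : x.denom.degree = 0 := by
    by_contra hd
    obtain ⟨z, hz⟩ := IsAlgClosed.exists_root x.denom hd
    exact h1 z hz
  have h3 : x.denom = 1 := by
    have h4 := x.monic_denom
    exact h4.natDegree_eq_zero.1 (natDegree_eq_of_degree_eq_some h2)
  refine ⟨x.num, ?_⟩
  have h4 := RatFunc.num_div_denom x
  rw [h3, map_one, div_one] at h4
  exact h4.symm

theorem inv_reg_poly (s : ℂ) (q : ℂ[X]) (hq : q.eval s ≠ 0) :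
    (algebraMap ℂ[X] (RatFunc ℂ) q)⁻¹ ∈ Reg s :=
  ⟨1, q, hq, by rw [map_one, one_div]⟩

theorem poly_reg (s : ℂ) (q : ℂ[X]) : algebraMap ℂ[X] (RatFunc ℂ) q ∈ Reg s :=
  ⟨q, 1, by simp, by simp⟩

theorem base_eq (s : ℂ) : (RatFunc.X + RatFunc.C (-s) : RatFunc ℂ) =
    algebraMap ℂ[X] (RatFunc ℂ) (X - C s) := by
  rw [map_sub, RatFunc.algebraMap_X, RatFunc.algebraMap_C, map_neg, sub_eq_add_neg]

/-- if `b Z` is regular, the order of the pole is at most the multiplicity of the root -/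
theorem PO_of_mul (b : ℂ[X]) (hb : b ≠ 0) (Z : RatFunc ℂ) (s : ℂ)
    (h : algebraMap ℂ[X] (RatFunc ℂ) b * Z ∈ Reg s) : PO s (b.rootMultiplicity s) Z := by
  obtain ⟨q, hq, hq'⟩ := exists_eq_pow_rootMultiplicity_mul_and_not_dvd b hb s
  have hq0 : q.eval s ≠ 0 := fun h0 => hq' (dvd_iff_isRoot.2 h0)
  unfold PO
  have h1 := (Reg s).mul_mem (inv_reg_poly s q hq0) h
  have hqa : algebraMap ℂ[X] (RatFunc ℂ) q ≠ 0 := by
    apply RatFunc.algebraMap_ne_zero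
    rintro rfl
    simp at hq0
  have e : (algebraMap ℂ[X] (RatFunc ℂ) q)⁻¹ * (algebraMap ℂ[X] (RatFunc ℂ) b * Z) =
      (RatFunc.X + RatFunc.C (-s)) ^ b.rootMultiplicity s * Z := by
    conv_lhs => rw [hq]
    rw [map_mul, map_pow, base_eq]
    field_simp
  rwa [e] at h1

end Pool.Agent.K1H20.TQ
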