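import Pool.Agent.K1H20.TQ.Base
import Pool.Agent.W574.HS.Minus
import Pool.Agent.Results.MP_b22d1f_ag.GenericTwisted

set_option autoImplicit false
set_option linter.unusedSectionVars false
set_option linter.unusedVariables false

/-! # Twisted topological zeta functions of Thom-Sebastiani sums -/

namespace Pool.Agent.K1H20.TQ

open Polynomial Pool.Agent.W574.SM Pool.Agent.W574.CN Pool.Agent.W574.RO Pool.Agent.Y229
open Pool.Agent.W574.MO Pool.Agent.W425.SM Pool.Agent.W425.SV Pool.Agent.W422.GC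
open Pool.Agent.W425.ND Pool.Agent.W574.HS Pool.Agent.Y230.PS Pool.Agent.Y230.TH
open Pool.Agent.W425.SU Pool.Agent.W425.SI
open Pool.Agent.H628R4.TP (IsBFunction)
open Pool.Agent.Results.MP_b22d1f_ag.GenericTwisted (topZetaTwistedG)

/-- `b Z / (s + 1)` is a polynomial for every functional equation -/
def RQ (A : Fam) (Z : RatFunc ℂ) : Prop :=
  ∀ b : ℂ[X], IsFunctionalEq A.f b → ∃ P : ℂ[X], algebraMap ℂ[X] (RatFunc ℂ) b * Z =
    algebraMap ℂ[X] (RatFunc ℂ) ((X + 1) * P)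

/-- the property of the twisted zeta functions -/
structure Cw (A : Fam) (Z : RatFunc ℂ) : Prop where
  neg : ∀ s : ℂ, Z.denom.eval s = 0 → s.re < 0
  main : ∀ s : ℂ, ∃ n : ℕ, PO s n Z ∧ FM A.f s (n + dl s)

theorem alg_X1 : algebraMap ℂ[X] (RatFunc ℂ) (X + 1) = RatFunc.X + 1 := by
  rw [map_add, map_one, RatFunc.algebraMap_X]

theorem RQ_of_Cw (A : Fam) (Z : RatFunc ℂ) (h : Cw A Z) : RQ A Z := by
  intro b hb
  obtain ⟨P, hP⟩ := poly_of_reg (algebraMap ℂ[X] (RatFunc ℂ) b * Z * (RatFunc.X + 1)⁻¹)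
    fun s => by
    obtain ⟨n, h1, h2⟩ := h.main s
    obtain ⟨c, hc⟩ := h2 b hb
    rw [dl_eq] at hc
    split_ifs at hc with hs
    · have e : algebraMap ℂ[X] (RatFunc ℂ) b * Z * (RatFunc.X + 1)⁻¹ =
          algebraMap ℂ[X] (RatFunc ℂ) c * ((RatFunc.X + RatFunc.C (-s)) ^ n * Z) := by
        have e1 : (RatFunc.X + RatFunc.C (-s) : RatFunc ℂ) = RatFunc.X + 1 := by
          rw [hs, neg_neg, map_one]
        rw [hc, map_mul, map_pow, ← base_eq, e1, pow_succ]
        have := X1_ne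
        field_simp
      rw [e]
      exact (Reg s).mul_mem (poly_reg s c) h1
    · rw [add_zero] at hc
      have e : algebraMap ℂ[X] (RatFunc ℂ) b * Z * (RatFunc.X + 1)⁻¹ =
          algebraMap ℂ[X] (RatFunc ℂ) c * ((RatFunc.X + RatFunc.C (-s)) ^ n * Z) *
            (RatFunc.X + 1)⁻¹ := by
        rw [hc, map_mul, map_pow, ← base_eq]
        ring
      rw [e]
      exact (Reg s).mul_mem ((Reg s).mul_mem (poly_reg s c) h1) (X1_inv s hs)
  refine ⟨P, ?_⟩
  rw [map_mul, alg_X1, ← hP]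
  have := X1_ne
  field_simp

/-- `-1` is a root for hypersurfaces -/
theorem fm_minus_one {σ : Type} (g : MvPolynomial σ ℂ) (hg : g ≠ 0) (hu : ¬ g ∣ 1) :
    FM (fun _ : Fin 1 => g) (-1) 1 := by
  intro b hb
  obtain ⟨P, hP⟩ := isB_of_single g b hb
  have h1 := minus_one g 1 hg hu b P fun s => by
    rw [one_mul]
    exact hP s
  rw [pow_one]
  exact dvd_iff_isRoot.2 h1

/-- a functional equation of minimal multiplicity at `s` -/
theorem exists_min (A : Fam) (hfin : Finite A.σ) (hne : ∃ j, A.f j ≠ 0) (s : ℂ) :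
    ∃ b : ℂ[X], b ≠ 0 ∧ IsFunctionalEq A.f b ∧ FM A.f s (b.rootMultiplicity s) := by
  classical
  have hex : ∃ n : ℕ, ∃ b : ℂ[X], b ≠ 0 ∧ IsFunctionalEq A.f b ∧ b.rootMultiplicity s = n := by
    obtain ⟨b0, hb0, hfe⟩ := exists_fe A.f hne
    exact ⟨_, b0, hb0, hfe, rfl⟩
  obtain ⟨b, hb0, hb, hn⟩ := Nat.find_spec hex
  refine ⟨b, hb0, hb, fun b' hb' => ?_⟩
  by_cases h0 : b' = 0
  · rw [h0]
    exact dvd_zero _
  · refine (le_rootMultiplicity_iff h0).1 ?_
    rw [hn]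
    exact Nat.find_min' hex ⟨b', h0, hb', rfl⟩

theorem Cw_of_RQ (A : Fam) (Z : RatFunc ℂ) (hfin : Finite A.σ) (hne : ∃ j, A.f j ≠ 0)
    (hneg : ∀ s : ℂ, Z.denom.eval s = 0 → s.re < 0) (h1 : FM A.f (-1) 1) (h : RQ A Z) :
    Cw A Z := by
  classical
  refine ⟨hneg, fun s => ?_⟩
  obtain ⟨b, hb0, hb, hmin⟩ := exists_min A hfin hne s
  obtain ⟨P, hP⟩ := h b hb
  rw [dl_eq]
  split_ifs with hs
  · subst hs
    have h2 : 1 ≤ b.rootMultiplicity (-1) := (le_rootMultiplicity_iff hb0).2 (h1 b hb)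
    obtain ⟨m, hm⟩ : ∃ m, b.rootMultiplicity (-1) = m + 1 := ⟨_, (Nat.sub_add_cancel h2).symm⟩
    refine ⟨m, ?_, by rw [← hm]; exact hmin⟩
    obtain ⟨b', hb'⟩ := dvd_iff_isRoot.2 ((rootMultiplicity_pos hb0).1 (by omega : 0 < b.rootMultiplicity (-1)))
    have hb'0 : b' ≠ 0 := by
      rintro rfl
      exact hb0 (by rw [hb', mul_zero])
    have h3 : b'.rootMultiplicity (-1) = m := by
      have h4 := rootMultiplicity_mul (x := (-1 : ℂ)) (p := X - C (-1)) (q := b')
        (by rw [← hb']; exact hb0)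
      rw [← hb', hm, rootMultiplicity_X_sub_C_self] at h4
      omega
    rw [← h3]
    refine PO_of_mul b' hb'0 Z (-1) ?_
    have h5 : algebraMap ℂ[X] (RatFunc ℂ) b' * Z = algebraMap ℂ[X] (RatFunc ℂ) P := by
      have h6 : algebraMap ℂ[X] (RatFunc ℂ) (X + 1) ≠ 0 := by
        rw [alg_X1]
        exact X1_ne
      apply mul_left_cancel₀ h6
      rw [← mul_assoc, ← map_mul, ← map_mul, ← hP, hb', X_add_one]
    rw [h5]
    exact poly_reg _ P
  · refine ⟨b.rootMultiplicity s, ?_, by rw [add_zero]; exact hmin⟩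
    refine PO_of_mul b hb0 Z s ?_
    rw [hP]
    exact poly_reg s _

/-- `KnownTw A Z₀ Z`: the hypersurface `A` has the topological zeta function `Z₀` and the twisted
topological zeta functions `Z e`, `e ≥ 2`, and it is one of the following hypersurfaces. -/
inductive KnownTw : Fam → RatFunc ℂ → (ℕ → RatFunc ℂ) → Prop
  /-- any hypersurface `g = 0` such that `b Z₀` and `b Z^(e) / (s + 1)`, `e ≥ 2`, are polynomials for
  every functional equation; the zeta functions are computed on an embedded resolution with the numbers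
  `ν j > 0` and `N j` and the Euler characteristics `χ S` of the strata -/
  | any (σ : Type) (hfin : Finite σ) (g : MvPolynomial σ ℂ) (hg : g ≠ 0) (hu : ¬ g ∣ 1)
      (J : Type) [Fintype J] (ν N : J → ℕ) (hν : ∀ j, 0 < ν j) (χ : Finset J → ℤ)
      (h : QQ ⟨σ, Fin 1, fun _ => g⟩ (Pool.Agent.TH192.DT.topZ ν N χ))
      (h2 : ∀ e, 2 ≤ e → RQ ⟨σ, Fin 1, fun _ => g⟩ (Pool.Agent.TH192.DT.twZ e ν N χ)) :
      KnownTw ⟨σ, Fin 1, fun _ => g⟩ (Pool.Agent.TH192.DT.topZ ν N χ)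
        (fun e => Pool.Agent.TH192.DT.twZ e ν N χ)
  /-- the nonconstant monomials, for instance `z ^ m` -/
  | monomial (N : ℕ) (w : Fin N → ℕ) (hw : w ≠ 0) :
      KnownTw ⟨Fin N, Fin 1, fun _ => ∏ l, MvPolynomial.X l ^ w l⟩ (∏ l, fac (w l) 1)
        (open Classical in fun e => if ∀ l, e ∣ w l then ∏ l, fac (w l) 1 else 0)
  /-- the polynomials with very general coefficients at the vertices of the Newton polytope and
  arbitrary other terms -/
  | generic (r N : ℕ) (hr : 1 ≤ r) (F : Subfield ℂ) (v : Fin r → Fin N → ℕ)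
      (hv : Function.Injective v) (hv0 : ∀ j, v j ≠ 0) (h : MvPolynomial (Fin N) F)
      (hh : ∀ w ∈ h.support, Hull v w) (a : Fin r → ℂ) (ha : AlgebraicIndependent F a)
      (R : SmoothFan N) (hR : Principal v R) :
      KnownTw ⟨Fin N, Fin 1, fun _ => sparse v a + MvPolynomial.map (algebraMap F ℂ) h⟩
        (topZetaG v R) (fun e => topZetaTwistedG v R e)

/-- `TW A Z₀ Z`: hypersurfaces `A` with their topological zeta functions `Z₀` and their twisted
topological zeta functions `Z e`, `e ≥ 2`. -/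
inductive TW : Fam → RatFunc ℂ → (ℕ → RatFunc ℂ) → Prop
  /-- the hypersurfaces started from -/
  | atom (A : Fam) (Z₀ : RatFunc ℂ) (Z : ℕ → RatFunc ℂ) (h : KnownTw A Z₀ Z) : TW A Z₀ Z
  /-- the product of two polynomials in disjoint sets of variables; `x` and `y` are the Euler
  characteristics of the complements of the two hypersurfaces -/
  | mul (A B : Fam) (Z₀ W₀ : RatFunc ℂ) (Z W : ℕ → RatFunc ℂ) (x y : ℤ) (hA : TW A Z₀ Z)
      (hB : TW B W₀ W) :
      TW (A.mul B) (Z₀ * W₀) (fun e => Z e * W e + ((x : RatFunc ℂ) * W e + (y : RatFunc ℂ) * Z e))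
  /-- `∑ y_j f_j(x)`, for an ideal `(f_j)` of the class `TT Known KnownHyp false`; it has no twisted
  zeta functions for `e ≥ 2` -/
  | univ (A : Fam) (Z : RatFunc ℂ) (hA : TT Known KnownHyp false A Z) :
      TW (univFam A) (Z * (RatFunc.X + 1)⁻¹) (fun _ => 0)
  /-- the Thom-Sebastiani sum `∑ y_j f_j(x) + g(z)`, for an ideal `(f_j)` of the class
  `TT Known KnownHyp false`: if `1 - Z = s ∫ V(t) exp(- s t) dt` for the ideal, `1 - (s + 1) W₀ =
  s ∫ U(t) exp(- s t) dt - c s` and `W^(e) = ∫ U_e(t) exp(- s t) dt` for `g`, then the topological zeta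
  function is `Z₀`, `1 - (s + 1) Z₀ = s ∫ V(t) U(t) exp(- s t) dt - c V(0) s`, and the twisted ones are
  `∫ V(t) U_e(t) exp(- s t) dt` -/
  | ts (A : Fam) (τ : Type) (g : MvPolynomial τ ℂ) (Z W₀ : RatFunc ℂ) (W : ℕ → RatFunc ℂ)
      (v w : ℂ × ℕ →₀ ℂ) (u : ℕ → (ℂ × ℕ →₀ ℂ)) (c : ℂ) (hv : 1 - Z = RatFunc.X * lap v)
      (hw : 1 - (RatFunc.X + 1) * W₀ = RatFunc.X * (lap w - RatFunc.C c))
      (hv0 : ∀ p ∈ v.support, p.1 ≠ 0) (hw0 : ∀ p ∈ w.support, p.1 ≠ 0)
      (hu : ∀ e, 2 ≤ e → W e = lap (u e)) (hA : TT Known KnownHyp false A Z)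
      (hg : TW ⟨τ, Fin 1, fun _ => g⟩ W₀ W) :
      TW (tsFam A τ g) ((1 - RatFunc.X * (lap2 v w - RatFunc.C (c * val0 v))) * (RatFunc.X + 1)⁻¹)
        (fun e => lap2 v (u e))
  /-- variables which do not occur may be dropped -/
  | drop (σ κ : Type) (g : MvPolynomial σ ℂ) (Z₀ : RatFunc ℂ) (Z : ℕ → RatFunc ℂ)
      (h : TW ⟨σ ⊕ κ, Fin 1, fun _ => MvPolynomial.rename Sum.inl g⟩ Z₀ Z) :
      TW ⟨σ, Fin 1, fun _ => g⟩ Z₀ Z
  /-- the variables and the generators may be indexed differently -/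
  | equiv (A B : Fam) (i : A.σ ≃ B.σ) (k : A.ι ≃ B.ι)
      (h : ∀ j, B.f (k j) = MvPolynomial.rename i (A.f j)) (Z₀ : RatFunc ℂ) (Z : ℕ → RatFunc ℂ)
      (hA : TW A Z₀ Z) : TW B Z₀ Z

/-! ### Monomials -/

/-- the trivial toric resolution of a monomial -/
noncomputable def trivRes {N : ℕ} (w : Fin N → ℕ) :
    Pool.Agent.H628R4.TZ.ToricResolution (fun _ : Fin 1 => w) where
  n := 1
  ray _ i l := if i = l then 1 else 0
  unimodular _ := by
    have : (Matrix.of fun i l : Fin N => (((if i = l then 1 else 0 : ℕ)) : ℤ)) = 1 := by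
      ext i l
      simp [Matrix.one_apply]
    rw [this, Matrix.det_one]
    exact isUnit_one
  cover x hx := ⟨0, x, hx, fun l => by simp⟩
  disjoint k k' h := absurd (Subsingleton.elim k k') h
  principal _ := ⟨0, fun j' i => le_refl _⟩

theorem topZeta_triv {N : ℕ} (w : Fin N → ℕ) :
    Pool.Agent.H628R4.TZ.topZeta (trivRes w) = ∏ l, fac (w l) 1 := by
  unfold Pool.Agent.H628R4.TZ.topZeta
  refine (Fin.sum_univ_one (fun k : Fin 1 => ∏ i : Fin N,
    ((Pool.Agent.H628R4.TZ.ordAlong (fun _ : Fin 1 => w) ((trivRes w).ray k i) : RatFunc ℂ) *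
      RatFunc.X + ((∑ l, (trivRes w).ray k i l : ℕ) : RatFunc ℂ))⁻¹)).trans ?_
  refine Finset.prod_congr rfl fun i _ => ?_
  have h1 : Pool.Agent.H628R4.TZ.ordAlong (fun _ : Fin 1 => w)
      ((trivRes w).ray (0 : Fin 1) i) = w i := by
    unfold Pool.Agent.H628R4.TZ.ordAlong
    rw [ciInf_const]
    change ∑ l, (if i = l then 1 else 0) * w l = w i
    simp
  have h2 : ∑ l, (trivRes w).ray (0 : Fin 1) i l = 1 := by
    change ∑ l, (if i = l then 1 else 0) = 1
    simp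
  rw [h1, h2, fac, one_div, add_comm]

theorem mono_ne {N : ℕ} (w : Fin N → ℕ) :
    (∏ l, MvPolynomial.X l ^ w l : MvPolynomial (Fin N) ℂ) ≠ 0 :=
  Finset.prod_ne_zero_iff.2 fun l _ => pow_ne_zero _ (MvPolynomial.X_ne_zero l)

theorem mono_unit {N : ℕ} (w : Fin N → ℕ) (hw : w ≠ 0) :
    ¬ (∏ l, MvPolynomial.X l ^ w l : MvPolynomial (Fin N) ℂ) ∣ 1 := by
  obtain ⟨l, hl⟩ : ∃ l, w l ≠ 0 := by
    by_contra h
    push Not at h
    exact hw (funext h)
  rintro ⟨q, hq⟩
  have h1 := congrArg MvPolynomial.constantCoeff hq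
  rw [map_one, map_mul, map_prod, Finset.prod_eq_zero (Finset.mem_univ l), zero_mul] at h1
  · exact one_ne_zero h1
  · rw [map_pow, MvPolynomial.constantCoeff_X, zero_pow hl]

theorem mono_QQ {N : ℕ} (w : Fin N → ℕ) :
    QQ ⟨Fin N, Fin 1, fun _ => ∏ l, MvPolynomial.X l ^ w l⟩ (∏ l, fac (w l) 1) := by
  intro b hb
  rw [← topZeta_triv]
  exact Pool.Agent.H628R4.TZ.main (v := fun _ : Fin 1 => w) (trivRes w) b hb

theorem fac_mul_aff (n : ℕ) : fac n 1 * algebraMap ℂ[X] (RatFunc ℂ) (C (n : ℂ) * X + 1) = 1 := by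
  have h0 : (C (n : ℂ) * X + 1 : ℂ[X]) ≠ 0 := fun h => by
    have := congrArg (eval 0) h
    simp at this
  have h1 : algebraMap ℂ[X] (RatFunc ℂ) (C (n : ℂ) * X + 1) ≠ 0 := RatFunc.algebraMap_ne_zero h0
  rw [fac]
  have e : (((1 : ℕ) : RatFunc ℂ) + (n : RatFunc ℂ) * RatFunc.X) =
      algebraMap ℂ[X] (RatFunc ℂ) (C (n : ℂ) * X + 1) := by
    rw [map_add, map_mul, map_one, RatFunc.algebraMap_X, RatFunc.algebraMap_C, Nat.cast_one,
      map_natCast, add_comm]
  rw [e, one_div, inv_mul_cancel₀ h1]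

theorem mono_RQ {N : ℕ} (w : Fin N → ℕ) (hw : w ≠ 0) (e : ℕ) (he : 2 ≤ e)
    (hd : ∀ l, e ∣ w l) :
    RQ ⟨Fin N, Fin 1, fun _ => ∏ l, MvPolynomial.X l ^ w l⟩ (∏ l, fac (w l) 1) := by
  classical
  intro b hb
  obtain ⟨P, hP⟩ := mono_QQ w b hb
  have h1 : P * ∏ l, (C (w l : ℂ) * X + 1) = b := by
    apply RatFunc.algebraMap_injective ℂ
    rw [map_mul, ← hP, mul_assoc, map_prod, ← Finset.prod_mul_distrib,
      Finset.prod_congr rfl fun l _ => fac_mul_aff (w l), Finset.prod_const_one, mul_one]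
  have h2 : b.eval (-1) = 0 := by
    have h3 := fm_minus_one _ (mono_ne w) (mono_unit w hw) b hb
    rw [pow_one] at h3
    exact dvd_iff_isRoot.1 h3
  have h4 : P.eval (-1) = 0 := by
    rw [← h1, eval_mul, eval_prod] at h2
    refine (mul_eq_zero.1 h2).resolve_right ?_
    refine Finset.prod_ne_zero_iff.2 ?_
    intro l _ h5
    rw [eval_add, eval_mul, eval_C, eval_X, eval_one] at h5
    have h6 : (w l : ℂ) = 1 := by linear_combination -h5
    have h7 : w l = 1 := by exact_mod_cast h6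
    have h8 := hd l
    rw [h7] at h8
    have := Nat.le_of_dvd one_pos h8
    omega
  obtain ⟨Q, hQ⟩ := dvd_iff_isRoot.2 h4
  refine ⟨Q, ?_⟩
  rw [hP, hQ, X_add_one]

theorem zero_Cw (A : Fam) (h1 : FM A.f (-1) 1) : Cw A 0 := by
  refine ⟨fun s hs => ?_, fun s => ⟨0, PO_zero (Reg s).zero_mem, ?_⟩⟩
  · rw [RatFunc.denom_zero, eval_one] at hs
    exact absurd hs one_ne_zero
  · rw [dl_eq]
    split_ifs with h
    · rw [h]
      exact h1
    · intro b hb
      rw [add_zero, pow_zero]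
      exact one_dvd _

theorem twZ_reg {J : Type} [Fintype J] (e : ℕ) (ν N : J → ℕ) (hν : ∀ j, 0 < ν j)
    (χ : Finset J → ℤ) (s : ℂ) (hs : 0 ≤ s.re) : Pool.Agent.TH192.DT.twZ e ν N χ ∈ Reg s := by
  unfold Pool.Agent.TH192.DT.twZ
  exact Subring.sum_mem _ fun I _ => (Reg s).mul_mem (C_reg s _) (Subring.prod_mem _ fun j _ =>
    aff_reg _ _ (hν j) s hs)

theorem genTw_reg {r N : ℕ} (v : Fin r → Fin N → ℕ) (R : SmoothFan N) (e : ℕ) (s : ℂ)
    (hs : 0 ≤ s.re) : topZetaTwistedG v R e ∈ Reg s := by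
  classical
  unfold Pool.Agent.Results.MP_b22d1f_ag.GenericTwisted.topZetaTwistedG
  refine Subring.sum_mem _ fun τ hτ => (Reg s).mul_mem ((Reg s).add_mem ?_ ?_)
    (Subring.prod_mem _ fun ρ hρ => ?_)
  · split_ifs
    · exact C_reg s _
    · exact (Reg s).zero_mem
  · split_ifs
    · exact (Reg s).mul_mem (C_reg s _) (X1_inv_reg s hs)
    · exact (Reg s).zero_mem
  · exact aff_reg _ _ (fan_pos R τ (Finset.mem_filter.1 hτ).1 ρ hρ) s hs

theorem knownTw (A : Fam) (Z₀ : RatFunc ℂ) (Z : ℕ → RatFunc ℂ) (h : KnownTw A Z₀ Z) :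
    Cq A Z₀ ∧ FM A.f (-1) 1 ∧ ∀ e, 2 ≤ e → Cw A (Z e) := by
  classical
  cases h with
  | any σ hfin g hg hu J ν N hν χ h h2 =>
    have h1 := fm_minus_one g hg hu
    refine ⟨Cq_of_QQ _ _ hfin ⟨(0 : Fin 1), hg⟩ (neg_of_reg fun s hs => topZ_reg ν N hν χ s hs) h,
      h1, fun e he => ?_⟩
    exact Cw_of_RQ _ _ hfin ⟨(0 : Fin 1), hg⟩ (neg_of_reg fun s hs => twZ_reg e ν N hν χ s hs) h1
      (h2 e he)
  | monomial N w hw =>
    have h1 := fm_minus_one _ (mono_ne w) (mono_unit w hw)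
    have hreg : ∀ s : ℂ, 0 ≤ s.re → (∏ l, fac (w l) 1) ∈ Reg s := fun s hs =>
      Subring.prod_mem _ fun l _ => fac_reg _ _ one_pos s hs
    refine ⟨Cq_of_QQ _ _ (inferInstanceAs (Finite (Fin N))) ⟨(0 : Fin 1), mono_ne w⟩
      (neg_of_reg hreg) (mono_QQ w), h1, fun e he => ?_⟩
    change Cw _ (if ∀ l, e ∣ w l then ∏ l, fac (w l) 1 else 0)
    split_ifs with hd
    · exact Cw_of_RQ _ _ (inferInstanceAs (Finite (Fin N))) ⟨(0 : Fin 1), mono_ne w⟩
        (neg_of_reg hreg) h1 (mono_RQ w hw e he hd)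
    · exact zero_Cw _ h1
  | generic r N hr F v hv hv0 h hh a ha R hR =>
    have hK := hyp_Cq _ _ (KnownHyp.strong _ _ (StrongHyp.generic r N hr F v hv hv0 h hh a ha R hR))
    have hu : ¬ (sparse v a + MvPolynomial.map (algebraMap F ℂ) h) ∣ 1 := by
      rintro ⟨q, hq⟩
      have h1 := congrArg MvPolynomial.constantCoeff hq
      have h2 := f_const hv0 a h fun w hw => by
        obtain ⟨l, h3, h4, h5⟩ := hh w hw
        exact ⟨l, h3, h4, fun i => (h5 i).le⟩
      rw [map_one, map_mul] at h1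
      rw [h2, zero_mul] at h1
      exact one_ne_zero h1
    have hg : (sparse v a + MvPolynomial.map (algebraMap F ℂ) h) ≠ 0 := by
      obtain ⟨j, hj⟩ := hK.ne
      exact hj
    have h1 := fm_minus_one _ hg hu
    refine ⟨hK, h1, fun e he => ?_⟩
    refine Cw_of_RQ _ _ hK.fin hK.ne (neg_of_reg fun s hs => genTw_reg v R e s hs) h1
      fun b hb => ?_
    exact (Pool.Agent.Results.MP_b22d1f_ag.GenericTwisted.result hr v a hv hv0 ha h hh R hR b
      (isB_of_single _ b hb) e (by omega)).2 he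

theorem lap2_neg (v w : ℂ × ℕ →₀ ℂ) (hv : ∀ p ∈ v.support, (-p.1).re < 0)
    (hw : ∀ p ∈ w.support, (-p.1).re < 0) (s : ℂ) (h : (lap2 v w).denom.eval s = 0) :
    s.re < 0 := by
  obtain ⟨n, h1, h2⟩ := lap2_order v w s
  rcases h2 with rfl | ⟨p, hp, q, hq, rfl, -⟩
  · unfold PO at h1
    rw [pow_zero, one_mul] at h1
    exact absurd h (Reg_denom s _ h1)
  · rw [Complex.add_re]
    exact add_neg (hv p hp) (hw q hq)

theorem tt_mono (At HAt HAt' : Fam → RatFunc ℂ → Prop) (hsub : ∀ B W, HAt B W → HAt' B W)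
    (c : Bool) (A : Fam) (Z : RatFunc ℂ) (h : TT At HAt c A Z) : TT At HAt' c A Z := by
  induction h with
  | atom A Z h => exact TT.atom A Z h
  | hatom A Z h => exact TT.hatom A Z (hsub _ _ h)
  | hyp A Z h ih => exact TT.hyp A Z ih
  | sum A B Z W v w hv hw hv0 hw0 hA hB ihA ihB =>
    exact TT.sum A B Z W v w hv hw hv0 hw0 ihA ihB
  | mul c A B Z W hA hB ihA ihB => exact TT.mul c A B Z W ihA ihB
  | univ A Z hA ih => exact TT.univ A Z ih
  | ts A τ g Z W v w c hv hw hv0 hw0 hA hg ihA ihg =>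
    exact TT.ts A τ g Z W v w c hv hw hv0 hw0 ihA ihg
  | drop σ κ g Z h ih => exact TT.drop σ κ g Z ih
  | equiv c A B i k h Z hA ih => exact TT.equiv c A B i k h Z ih

/-- **The induction.** -/
theorem tw_closure (A : Fam) (Z₀ : RatFunc ℂ) (Z : ℕ → RatFunc ℂ) (h : TW A Z₀ Z) :
    Cq A Z₀ ∧ FM A.f (-1) 1 ∧ ∀ e, 2 ≤ e → Cw A (Z e) := by
  classical
  induction h with
  | atom A Z₀ Z h => exact knownTw A Z₀ Z h
  | mul A B Z₀ W₀ Z W x y hA hB ihA ihB =>
    obtain ⟨h1, h2, h3⟩ := ihA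
    obtain ⟨h1', h2', h3'⟩ := ihB
    have hfA := h1.fin
    have hfB := h1'.fin
    refine ⟨?_, fm_mulL A B _ _ h1'.ne h2, fun e he => ⟨fun s hs => ?_, fun s => ?_⟩⟩
    · refine ⟨inferInstanceAs (Finite (A.σ ⊕ B.σ)), ?_, fun s hs => ?_, fun s => ?_⟩
      · obtain ⟨j, hj⟩ := h1.ne
        obtain ⟨k, hk⟩ := h1'.ne
        refine ⟨(j, k), ?_⟩
        change (MvPolynomial.rename Sum.inl (A.f j) * MvPolynomial.rename Sum.inr (B.f k) :
          MvPolynomial (A.σ ⊕ B.σ) ℂ) ≠ 0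
        refine mul_ne_zero ?_ ?_
        · rw [Ne, map_eq_zero_iff _ (MvPolynomial.rename_injective _ Sum.inl_injective)]
          exact hj
        · rw [Ne, map_eq_zero_iff _ (MvPolynomial.rename_injective _ Sum.inr_injective)]
          exact hk
      · by_contra hre
        push Not at hre
        exact Reg_denom s _ ((Reg s).mul_mem (reg_of_neg h1.neg s hre)
          (reg_of_neg h1'.neg s hre)) hs
      · by_cases hre : 0 ≤ s.re
        · refine ⟨0, PO_zero ((Reg s).mul_mem (reg_of_neg h1.neg s hre)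
            (reg_of_neg h1'.neg s hre)), fun b hb => ?_⟩
          rw [pow_zero]
          exact one_dvd _
        · obtain ⟨m, h4, h5⟩ := h1.main s
          obtain ⟨n, h6, h7⟩ := h1'.main s
          refine ⟨m + n, h4.mul h6, FM_mul A.f B.f h1.ne h1'.ne s (fun N hN => hre ?_) m n h5 h7⟩
          rw [← hN, Complex.natCast_re]
          exact Nat.cast_nonneg N
    · by_contra hre
      push Not at hre
      have hZ := reg_of_neg (h3 e he).neg s hre
      have hW := reg_of_neg (h3' e he).neg s hre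
      exact Reg_denom s _ ((Reg s).add_mem ((Reg s).mul_mem hZ hW) ((Reg s).add_mem
        ((Reg s).mul_mem (int_reg s x) hW) ((Reg s).mul_mem (int_reg s y) hZ))) hs
    · by_cases hre : 0 ≤ s.re
      · have hZ := reg_of_neg (h3 e he).neg s hre
        have hW := reg_of_neg (h3' e he).neg s hre
        refine ⟨0, PO_zero ((Reg s).add_mem ((Reg s).mul_mem hZ hW) ((Reg s).add_mem
          ((Reg s).mul_mem (int_reg s x) hW) ((Reg s).mul_mem (int_reg s y) hZ))), fun b hb => ?_⟩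
        rw [dl_eq, if_neg, add_zero, pow_zero]
        · exact one_dvd _
        · rintro rfl
          norm_num at hre
      · obtain ⟨m, h4, h5⟩ := (h3 e he).main s
        obtain ⟨n, h6, h7⟩ := (h3' e he).main s
        have h8 : FM (A.mul B).f s ((m + dl s) + (n + dl s)) :=
          FM_mul A.f B.f h1.ne h1'.ne s (fun N hN => hre (by
            rw [← hN, Complex.natCast_re]
            exact Nat.cast_nonneg N)) _ _ h5 h7
        refine ⟨m + n, (h4.mul h6).add (((PO.reg_mul (int_reg s x) h6).mono (by omega)).add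
          ((PO.reg_mul (int_reg s y) h4).mono (by omega))), h8.mono (by omega)⟩
  | univ A Z hA =>
    have hC := closure Known KnownHyp known_Cq hyp_Cq false A Z hA
    have hfA := hC.fin
    have h0 : FM (univFam A).f (-1) 1 := by
      have := fm_univ A hC.ne (-1) 0 (fun b hb => by rw [pow_zero]; exact one_dvd _)
      rwa [dl_eq, if_pos rfl] at this
    exact ⟨closure Known KnownHyp known_Cq hyp_Cq true _ _ (TT.univ A Z hA), h0,
      fun e he => zero_Cw _ h0⟩
  | ts A τ g Z W₀ W v w u c hv hw hv0 hw0 hu hA hg ihg =>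
    have hC := closure Known KnownHyp known_Cq hyp_Cq false A Z hA
    obtain ⟨h1, h2, h3⟩ := ihg
    have hfA := hC.fin
    have hfg := h1.fin
    have hg0 : g ≠ 0 := by
      obtain ⟨j, hj⟩ := h1.ne
      exact hj
    have h0 : FM (tsFam A τ g).f (-1) 1 := by
      intro b hb
      obtain ⟨b', rfl, -⟩ := fm_ts A τ g hC.ne hg0 b hb
      rw [pow_one, X_add_one]
      exact dvd_mul_right _ _
    have hvneg : ∀ p ∈ v.support, (-p.1).re < 0 := fun p hp =>
      hC.neg _ (pole_of_exp Z v hv hv0 p hp)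
    refine ⟨?_, h0, fun e he => ⟨?_, fun s => ?_⟩⟩
    · -- the untwisted part: the atom `g` may be taken as a hypersurface with (Q2)
      have h4 : TT Known (fun B W => B = (⟨τ, Fin 1, fun _ => g⟩ : Fam) ∧ W = W₀ ∨ KnownHyp B W)
          true (tsFam A τ g)
          ((1 - RatFunc.X * (lap2 v w - RatFunc.C (c * val0 v))) * (RatFunc.X + 1)⁻¹) := by
        refine TT.ts A τ g Z W₀ v w c hv hw hv0 hw0 ?_ (TT.hatom _ _ (Or.inl ⟨rfl, rfl⟩))
        exact tt_mono Known KnownHyp _ (fun B W hB => Or.inr hB) false A Z hA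
      refine closure Known _ known_Cq ?_ true _ _ h4
      rintro B W (⟨rfl, rfl⟩ | hB)
      · exact h1
      · exact hyp_Cq B W hB
    · refine lap2_neg v (u e) hvneg fun q hq => ?_
      refine (h3 e he).neg _ ?_
      by_contra h5
      have h6 := mem_Reg_of_denom _ _ h5
      rw [hu e he] at h6
      exact lap_pole (u e) q hq h6
    · obtain ⟨n, h4, h5⟩ := lap2_order v (u e) s
      refine ⟨n, h4, fun b hb => ?_⟩
      obtain ⟨b', rfl, h7⟩ := fm_ts A τ g hC.ne hg0 b hb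
      have h8 : (X - C s) ^ n ∣ b' := by
        rcases h5 with rfl | ⟨p, hp, q, hq, rfl, rfl⟩
        · rw [pow_zero]
          exact one_dvd _
        · have h9 : FM (fun _ : Fin 1 => g) (-q.1) ((q.2 + 1) + dl (-q.1)) := by
            obtain ⟨m, h10, h11⟩ := (h3 e he).main (-q.1)
            rw [hu e he] at h10
            have := lap_order (u e) q hq m h10
            exact h11.mono (by omega)
          have h12 := h7 (-p.1) (-q.1) (p.2 + 1) (q.2 + 1) (by omega) (by omega)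
            (FM_exp A Z hC v hv hv0 p hp) h9
          exact (pow_dvd_pow _ (by omega)).trans h12
      rw [dl_eq]
      split_ifs with h9
      · rw [pow_succ']
        refine mul_dvd_mul ?_ h8
        rw [X_add_one, h9]
      · rw [add_zero]
        exact h8.mul_left _
  | drop σ κ g Z₀ Z h ih =>
    obtain ⟨h1, h2, h3⟩ := ih
    have hf : Finite (σ ⊕ κ) := h1.fin
    refine ⟨⟨Finite.of_injective (Sum.inl : σ → σ ⊕ κ) Sum.inl_injective,
      ⟨(0 : Fin 1), fun h0 => ?_⟩, h1.neg, fun s => ?_⟩, fm_drop (κ := κ) g _ _ h2,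
      fun e he => ⟨(h3 e he).neg, fun s => ?_⟩⟩
    · obtain ⟨j, hj⟩ := h1.ne
      apply hj
      have h4 : g = 0 := h0
      change MvPolynomial.rename Sum.inl g = 0
      rw [h4, map_zero]
    · obtain ⟨n, h4, h5⟩ := h1.main s
      exact ⟨n, h4, fm_drop (κ := κ) g _ _ h5⟩
    · obtain ⟨n, h4, h5⟩ := (h3 e he).main s
      exact ⟨n, h4, fm_drop (κ := κ) g _ _ h5⟩
  | equiv A B i k h Z₀ Z hA ih =>
    obtain ⟨h1, h2, h3⟩ := ih
    have hf := h1.fin
    refine ⟨⟨Finite.of_equiv A.σ i, ?_, h1.neg, fun s => ?_⟩, fm_equiv A B i k h _ _ h2,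
      fun e he => ⟨(h3 e he).neg, fun s => ?_⟩⟩
    · obtain ⟨j, hj⟩ := h1.ne
      refine ⟨k j, ?_⟩
      rw [h, Ne, map_eq_zero_iff _ (MvPolynomial.rename_injective _ i.injective)]
      exact hj
    · obtain ⟨n, h4, h5⟩ := h1.main s
      exact ⟨n, h4, fm_equiv A B i k h _ _ h5⟩
    · obtain ⟨n, h4, h5⟩ := (h3 e he).main s
      exact ⟨n, h4, fm_equiv A B i k h _ _ h5⟩

end Pool.Agent.K1H20.TQ
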